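import Pool.Agent.H3.Zz2

set_option autoImplicit false

namespace Pool.Agent.Results.MP_8790b5_co.Branch

open Pool.Agent.H3.Zz MeasureTheory Metric
open scoped RealInnerProductSpace

/-- `S` is a Steiner tree for `A`: a closed connected superset of `A` of finite length that is
shortest among the closed connected supersets of `A`. -/
def IsSteinerTree {d : ℕ} (A S : Set (EuclideanSpace ℝ (Fin d))) : Prop :=
  IsClosed S ∧ IsConnected S ∧ A ⊆ S ∧ Measure.hausdorffMeasure 1 S < ⊤ ∧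
    ∀ S' : Set (EuclideanSpace ℝ (Fin d)), IsClosed S' → IsConnected S' → A ⊆ S' →
      Measure.hausdorffMeasure 1 S ≤ Measure.hausdorffMeasure 1 S'

/-- `p` is a branching point: a point of `S \ A` near which `S` is the union of at least three
nondegenerate segments that have the endpoint `p`, and only it, in common. -/
def IsBranching {d : ℕ} (A S : Set (EuclideanSpace ℝ (Fin d))) (p : EuclideanSpace ℝ (Fin d)) :
    Prop :=
  p ∈ S ∧ p ∉ A ∧ ∃ U ∈ nhds p, ∃ k : ℕ, 3 ≤ k ∧ ∃ q : Fin k → EuclideanSpace ℝ (Fin d),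
    (∀ i, q i ≠ p) ∧ (∀ i j, i ≠ j → segment ℝ p (q i) ∩ segment ℝ p (q j) = {p}) ∧
    S ∩ U = ⋃ i, segment ℝ p (q i)

/-- `N_d`: the supremum of the number of branching points of a Steiner tree in a terminal-free
open ball. -/
noncomputable def N (d : ℕ) : ℕ∞ :=
  ⨆ (A : Set (EuclideanSpace ℝ (Fin d))) (S : Set (EuclideanSpace ℝ (Fin d)))
    (x : EuclideanSpace ℝ (Fin d)) (r : ℝ) (_ : IsCompact A) (_ : IsSteinerTree A S) (_ : 0 < r)
    (_ : A ∩ ball x r = ∅), {p | p ∈ ball x r ∧ IsBranching A S p}.encard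

theorem frame (d : ℕ) (hd : 2 ≤ d) : ∃ (u : ℕ → EuclideanSpace ℝ (Fin d))
    (n : EuclideanSpace ℝ (Fin d)), Ok u ∧ (∀ j, ⟪n, u j⟫ = 1) ∧ ⟪n, n⟫ = 4 / 3 := by
  obtain ⟨e, f, ee, ff, ef⟩ : ∃ e f : EuclideanSpace ℝ (Fin d), ⟪e, e⟫ = 1 ∧ ⟪f, f⟫ = 1 ∧
      ⟪e, f⟫ = 0 :=
    ⟨EuclideanSpace.single ⟨0, by omega⟩ 1, EuclideanSpace.single ⟨1, by omega⟩ 1, by simp, by simp,
      by simp [EuclideanSpace.inner_single_left]⟩
  have fe : ⟪f, e⟫ = 0 := (real_inner_comm _ _).trans ef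
  have w : √3 * √3 = (3 : ℝ) := Real.mul_self_sqrt (by norm_num)
  refine ⟨fun j => ((-1) ^ j / 2 : ℝ) • e + (√3 / 2 : ℝ) • f, (2 * √3 / 3 : ℝ) • f,
    fun j => ?_, fun j => ?_, ?_⟩
  · have : ((-1 : ℝ) ^ j) * (-1) ^ j = 1 := by rw [← mul_pow]; simp
    simp only [inner_add_left, inner_add_right, real_inner_smul_left, real_inner_smul_right, ee, ff,
      ef, fe, pow_succ]
    constructor <;> linarith
  · simp only [inner_add_right, real_inner_smul_left, real_inner_smul_right, ff, fe]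
    linarith
  · simp only [real_inner_smul_left, real_inner_smul_right, ff]
    linarith

/-- `N_d = ∞` for every `d ≥ 2`. -/
theorem result : ∀ d : ℕ, 2 ≤ d → N d = ⊤ := by
  intro d hd
  obtain ⟨u, n, hu, hn, hn'⟩ := frame d hd
  refine ENat.eq_top_iff_forall_ge.2 fun M => ?_
  have hA : insert 0 (P u M '' {k | k ≤ M}) ⊆ Tr u M := by
    rintro _ (rfl | ⟨k, -, rfl⟩)
    · exact (mem_Tr u M _).2 (Or.inl ⟨0, Nat.zero_le _, left_mem_segment _ _ _⟩)
    · unfold P
      split_ifs with h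
      · exact (mem_Tr u M _).2 (Or.inr ⟨k, h, right_mem_segment _ _ _⟩)
      · exact s_mem u M le_rfl
  have hB : insert 0 (P u M '' {k | k ≤ M}) ∩
      ball (s u (M + 1) - (3 / 4 : ℝ) • n) ‖(3 / 4 : ℝ) • n‖ = ∅ := by
    rw [Set.eq_empty_iff_forall_notMem]
    rintro _ ⟨rfl | ⟨k, -, rfl⟩, h⟩
    · exact zero_out hn hn' M h
    · exact P_out hu hn M k h
  have hr : 0 < ‖(3 / 4 : ℝ) • n‖ := by
    refine norm_pos_iff.2 (smul_ne_zero (by norm_num) ?_)
    rintro rfl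
    norm_num at hn'
  refine le_iSup_of_le (insert 0 (P u M '' {k | k ≤ M})) (le_iSup_of_le (Tr u M)
    (le_iSup_of_le (s u (M + 1) - (3 / 4 : ℝ) • n) (le_iSup_of_le ‖(3 / 4 : ℝ) • n‖
    (le_iSup_of_le (((Set.finite_le_nat M).image _).insert _).isCompact (le_iSup_of_le
      ⟨(Tr_cpt u M).isClosed, Tr_conn u M, hA, (Tr_len hu M).trans_lt ENNReal.ofReal_lt_top,
        fun S' _ h1 h2 => (Tr_len hu M).trans (core hu S' h1.2 M (h2 (Or.inl rfl)) fun k => ?_)⟩
      (le_iSup_of_le hr (le_iSup_of_le hB ?_)))))))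
  · by_cases h : k ≤ M
    · exact h2 (Or.inr ⟨k, h, rfl⟩)
    · refine h2 (Or.inr ⟨M, le_refl M, ?_⟩)
      rw [P, P, if_neg (lt_irrefl _), if_neg (by omega)]
  · have inj : Function.Injective fun j : Fin M => s u (j + 1) := fun i j h => by
      have := congrArg (fun z => ⟪n, z⟫) h
      simp only [ht hn, H_mono.injective.eq_iff] at this
      exact Fin.ext (by omega)
    have e : (Set.range fun j : Fin M => s u (j + 1)).encard = M := by
      rw [← Set.image_univ, inj.encard_image]; simp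
    rw [← e]
    refine Set.encard_le_encard ?_
    rintro _ ⟨j, rfl⟩
    obtain ⟨U, h1, q, h2⟩ := branch hu hn j.2
    refine ⟨s_in hu hn j.2, s_mem u M j.2.le, fun h => ?_, U, h1, 3, le_rfl, q, h2⟩
    exact (Set.eq_empty_iff_forall_notMem.1 hB) _ ⟨h, s_in hu hn j.2⟩

end Pool.Agent.Results.MP_8790b5_co.Branch
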