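import Pool.Agent.H3.Bl3

set_option autoImplicit false

namespace Pool.Agent.Results.MP_8790b5_co.Length

open Pool.Agent.H3.St MeasureTheory Metric

/-- `S` is a Steiner tree for `A`: a closed connected superset of `A` of finite length that is
shortest among the closed connected supersets of `A`. -/
def IsSteinerTree {d : ℕ} (A S : Set (EuclideanSpace ℝ (Fin d))) : Prop :=
  IsClosed S ∧ IsConnected S ∧ A ⊆ S ∧ Measure.hausdorffMeasure 1 S < ⊤ ∧
    ∀ S' : Set (EuclideanSpace ℝ (Fin d)), IsClosed S' → IsConnected S' → A ⊆ S' →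
      Measure.hausdorffMeasure 1 S ≤ Measure.hausdorffMeasure 1 S'

/-- `L_d`: the supremum of the normalised length of a Steiner tree in a terminal-free open ball. -/
noncomputable def L (d : ℕ) : ENNReal :=
  ⨆ (A : Set (EuclideanSpace ℝ (Fin d))) (S : Set (EuclideanSpace ℝ (Fin d)))
    (x : EuclideanSpace ℝ (Fin d)) (r : ℝ) (_ : IsCompact A) (_ : IsSteinerTree A S) (_ : 0 < r)
    (_ : A ∩ ball x r = ∅), Measure.hausdorffMeasure 1 (S ∩ ball x r) / ENNReal.ofReal r

theorem le_L {d : ℕ} {ι : Type} [Fintype ι] [DecidableEq ι] (p : ι → EuclideanSpace ℝ (Fin d))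
    (hp : ∀ t, ‖p t‖ = 1) (t0 : ι) (φ : ι → EuclideanSpace ℝ (Fin d) → ℝ)
    (hφ : ∀ (W : Finset ι) x z, ∑ t ∈ W, (φ t x - φ t z) ≤ dist x z) (c : ℝ)
    (hc : c ≤ ∑ t, (φ t (p t) - φ t (p t0))) : ENNReal.ofReal c ≤ L d := by
  obtain ⟨S, h1, h2, h3, h4, h5, h6⟩ := inball p hp t0 φ hφ
  refine (ENNReal.ofReal_le_ofReal hc).trans (h6.trans ?_)
  refine le_iSup_of_le (Set.range p) (le_iSup_of_le S (le_iSup_of_le 0 (le_iSup_of_le 1
    (le_iSup_of_le (Set.finite_range p).isCompact (le_iSup_of_le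
      ⟨h1.isClosed, h2, h3, h4, fun S' _ => h5 S'⟩ (le_iSup_of_le one_pos (le_iSup_of_le ?_ ?_)))))))
  · rw [Set.eq_empty_iff_forall_notMem]
    rintro _ ⟨⟨t, rfl⟩, h⟩
    simp [hp] at h
  · simp

/-- `L_2 = 2π` and `L_d = ∞` for every `d ≥ 3`. -/
theorem result : L 2 = ENNReal.ofReal (2 * Real.pi) ∧ ∀ d : ℕ, 3 ≤ d → L d = ⊤ := by
  refine ⟨le_antisymm ?_ ?_, fun d hd => ?_⟩
  · refine iSup_le fun A => iSup_le fun S => iSup_le fun x => iSup_le fun r => iSup_le fun _ =>
      iSup_le fun h => iSup_le fun hr => iSup_le fun hd => ?_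
    refine ENNReal.div_le_of_le_mul ?_
    rw [← ENNReal.ofReal_mul (by positivity)]
    exact upper A S x r hr h.1 h.2.1 h.2.2.1 h.2.2.2.1 h.2.2.2.2 (Set.disjoint_iff_inter_eq_empty.2 hd)
  · refine le_of_forall_lt_imp_le_of_dense fun e he => ?_
    obtain ⟨c, -, h1, h2⟩ := ENNReal.lt_iff_exists_real_btwn.1 he
    have c0 : 0 < c := ENNReal.ofReal_pos.1 (lt_of_le_of_lt zero_le h1)
    have c1 : c < 2 * Real.pi := (ENNReal.ofReal_lt_ofReal_iff (by positivity)).1 h2
    refine h1.le.trans ?_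
    obtain ⟨M, hM⟩ := exists_nat_gt (3 + 11 / (2 * Real.pi - c))
    have d0 : 0 < 11 / (2 * Real.pi - c) := div_pos (by norm_num) (by linarith)
    have M3 : (3 : ℝ) < M := by linarith
    have m1 : 11 < (2 * Real.pi - c) * M := by
      rw [← div_lt_iff₀' (by linarith)]; linarith
    have al0 : 0 < Real.pi / M := div_pos Real.pi_pos (by linarith)
    have al1 : Real.pi / M < Real.pi / 2 := div_lt_div_of_pos_left Real.pi_pos two_pos (by linarith)
    have k0 := Real.cos_pos_of_mem_Ioo ⟨by linarith, al1⟩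
    have s0 := Real.sin_pos_of_pos_of_lt_pi al0 (by linarith [Real.pi_pos])
    have s1 : c < 2 * M * Real.sin (Real.pi / M) := by
      have a := Real.sin_gt_sub_cube al0
      have b : Real.pi ^ 3 < 32 := by
        have := pow_lt_pow_left₀ Real.pi_lt_d2 Real.pi_pos.le three_ne_zero
        linarith
      have e : 2 * M * (Real.pi / M - (Real.pi / M) ^ 3 / 6) =
          2 * Real.pi - Real.pi ^ 3 / (3 * M ^ 2) := by field_simp; ring
      have f : Real.pi ^ 3 / (3 * M ^ 2) < 2 * Real.pi - c := by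
        rw [div_lt_iff₀ (by positivity)]; nlinarith
      nlinarith
    set s := Real.sin (Real.pi / M) with hs
    set k := Real.cos (Real.pi / M) with hk
    obtain ⟨w, hw⟩ : ∃ w : ℝ, w = k * (2 * M * s - c) / (4 * M * s) := ⟨_, rfl⟩
    obtain ⟨h, hh⟩ : ∃ h : ℝ, h = (2 * M * s + c) / (4 * M) := ⟨_, rfl⟩
    have w0 : 0 < w := by rw [hw]; exact div_pos (mul_pos k0 (by linarith)) (by positivity)
    have h0 : 0 < h := by rw [hh]; positivity
    have h3 : c < 2 * M * h := by
      have : 2 * M * h = (2 * M * s + c) / 2 := by rw [hh]; field_simp; ring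
      linarith
    obtain ⟨K, hK⟩ := exists_nat_gt ((c * (1 + 2 * h / w) + 2 * M * h) / (2 * M * h - c))
    have K0 : (0 : ℝ) < K := lt_trans (div_pos (by positivity) (by linarith)) hK
    rw [div_lt_iff₀ (by linarith)] at hK
    obtain ⟨p, t0, φ, a1, a2, a3⟩ := low M K (by exact_mod_cast M3.le) (by exact_mod_cast K0) w h w0 h0
      (le_of_eq (by rw [← hs, ← hk, hw, hh]; field_simp; ring))
    refine le_L p a1 t0 φ a2 c (le_trans ?_ a3)
    rw [le_div_iff₀ (by positivity)]
    linarith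
  · obtain ⟨k, rfl⟩ := Nat.exists_eq_add_of_le' hd
    refine ENNReal.eq_top_of_forall_nnreal_le fun c => ?_
    obtain ⟨n, hn⟩ := exists_nat_gt (4 * (c + 1 : ℝ))
    have n0 : (0 : ℝ) < n := lt_trans (by positivity) hn
    obtain ⟨p, t0, φ, a1, a2, a3⟩ := high k n (by exact_mod_cast n0)
    rw [← ENNReal.ofReal_coe_nnreal]
    exact le_L p a1 t0 φ a2 c (by linarith)

end Pool.Agent.Results.MP_8790b5_co.Length
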